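import Mathlib

set_option autoImplicit false

namespace Pool.Agent.H.Rhomb
open Set Metric

abbrev E := EuclideanSpace ℝ (Fin 2)

/-- coordinates with respect to the basis (1,0), (1/2, sqrt 3 / 2) -/
noncomputable def U (x : E) : ℝ := x 0 - x 1 / √3
noncomputable def V (x : E) : ℝ := 2 * x 1 / √3
noncomputable def pt (u v : ℝ) : E := !₂[u + v / 2, √3 / 2 * v]

lemma s33 : √3 * √3 = 3 := Real.mul_self_sqrt (by norm_num)

@[simp] lemma U_pt (u v : ℝ) : U (pt u v) = u := by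
  simp [U, pt]; field_simp; ring
@[simp] lemma V_pt (u v : ℝ) : V (pt u v) = v := by
  simp [V, pt]; field_simp
lemma pt_UV (x : E) : pt (U x) (V x) = x := by
  ext i; fin_cases i
  · simp [U, V, pt]; ring
  · simp [U, V, pt]
lemma ext_UV {x y : E} (h1 : U x = U y) (h2 : V x = V y) : x = y := by
  rw [← pt_UV x, h1, h2, pt_UV]

lemma U_lin (a b : ℝ) (x y : E) : U (a • x + b • y) = a * U x + b * U y := by
  simp [U]; ring
lemma V_lin (a b : ℝ) (x y : E) : V (a • x + b • y) = a * V x + b * V y := by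
  simp [V]; ring
lemma U_add (x y : E) : U (x + y) = U x + U y := by simp [U]; ring
lemma V_add (x y : E) : V (x + y) = V x + V y := by simp [V]; ring

@[fun_prop] lemma cU : Continuous U := by unfold U; fun_prop
@[fun_prop] lemma cV : Continuous V := by unfold V; fun_prop
@[fun_prop] lemma cpt {X : Type*} [TopologicalSpace X] {f g : X → ℝ} (hf : Continuous f)
    (hg : Continuous g) : Continuous fun t => pt (f t) (g t) := by
  unfold pt
  refine (PiLp.continuous_toLp 2 _).comp (continuous_pi fun i => ?_)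
  fin_cases i
  · simp; fun_prop
  · simp; fun_prop

lemma dsq (x y : E) : dist x y ^ 2 =
    (U x - U y) ^ 2 + (U x - U y) * (V x - V y) + (V x - V y) ^ 2 := by
  rw [EuclideanSpace.dist_eq, Real.sq_sqrt (by positivity)]
  simp only [Fin.sum_univ_two, U, V, Real.dist_eq, sq_abs]
  have h : √3 ≠ 0 := by positivity
  field_simp
  linear_combination ((x 1 - y 1) ^ 2) * s33

/-- integral affine maps in the lattice coordinates -/
@[ext] structure Aff where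
  p : ℤ
  q : ℤ
  r : ℤ
  s : ℤ
  a : ℤ
  b : ℤ

instance : Mul Aff := ⟨fun g h => ⟨g.p * h.p + g.q * h.r, g.p * h.q + g.q * h.s,
  g.r * h.p + g.s * h.r, g.r * h.q + g.s * h.s, g.p * h.a + g.q * h.b + g.a,
  g.r * h.a + g.s * h.b + g.b⟩⟩
instance : One Aff := ⟨⟨1, 0, 0, 1, 0, 0⟩⟩

lemma mul_def (g h : Aff) : g * h = ⟨g.p * h.p + g.q * h.r, g.p * h.q + g.q * h.s,
  g.r * h.p + g.s * h.r, g.r * h.q + g.s * h.s, g.p * h.a + g.q * h.b + g.a,
  g.r * h.a + g.s * h.b + g.b⟩ := rfl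
lemma one_def : (1 : Aff) = ⟨1, 0, 0, 1, 0, 0⟩ := rfl

instance : Monoid Aff where
  mul_assoc g h k := by ext <;> simp only [mul_def] <;> ring
  one_mul g := by ext <;> simp [mul_def, one_def]
  mul_one g := by ext <;> simp [mul_def, one_def]

def lin (g : Aff) : ℤ × ℤ × ℤ × ℤ := (g.p, g.q, g.r, g.s)

def D6 : List (ℤ × ℤ × ℤ × ℤ) := [(1, 0, 0, 1), (0, 1, 1, 0), (0, -1, 1, 1), (-1, 0, 1, 1),
  (-1, -1, 1, 0), (-1, -1, 0, 1), (-1, 0, 0, -1), (0, -1, -1, 0), (0, 1, -1, -1), (1, 0, -1, -1),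
  (1, 1, -1, 0), (1, 1, 0, -1)]

lemma D6_facts : ∀ m ∈ D6, m.1 ^ 2 + m.1 * m.2.2.1 + m.2.2.1 ^ 2 = 1 ∧
    m.2.1 ^ 2 + m.2.1 * m.2.2.2 + m.2.2.2 ^ 2 = 1 ∧
    2 * m.1 * m.2.1 + m.1 * m.2.2.2 + m.2.1 * m.2.2.1 + 2 * m.2.2.1 * m.2.2.2 = 1 ∧
    (m.1 * m.2.2.2 - m.2.1 * m.2.2.1) ^ 2 = 1 := by decide +kernel

lemma D6_mul' : ∀ m ∈ D6, ∀ n ∈ D6, (m.1 * n.1 + m.2.1 * n.2.2.1, m.1 * n.2.1 + m.2.1 * n.2.2.2,
    m.2.2.1 * n.1 + m.2.2.2 * n.2.2.1, m.2.2.1 * n.2.1 + m.2.2.2 * n.2.2.2) ∈ D6 := by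
  decide +kernel

lemma D6_mul {g h : Aff} (hg : lin g ∈ D6) (hh : lin h ∈ D6) : lin (g * h) ∈ D6 :=
  D6_mul' _ hg _ hh

noncomputable def F (g : Aff) (z : E) : E :=
  pt (g.p * U z + g.q * V z + g.a) (g.r * U z + g.s * V z + g.b)

lemma F_mul (g h : Aff) (z : E) : F (g * h) z = F g (F h z) := by
  simp only [F, mul_def, U_pt, V_pt]; push_cast; congr 1 <;> ring

lemma F_iso {g : Aff} (hg : lin g ∈ D6) : Isometry (F g) := by
  obtain ⟨h1, h2, h3, -⟩ := D6_facts _ hg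
  simp only [lin] at h1 h2 h3
  have h1' : (g.p : ℝ) ^ 2 + g.p * g.r + g.r ^ 2 = 1 := by exact_mod_cast h1
  have h2' : (g.q : ℝ) ^ 2 + g.q * g.s + g.s ^ 2 = 1 := by exact_mod_cast h2
  have h3' : 2 * (g.p : ℝ) * g.q + g.p * g.s + g.q * g.r + 2 * g.r * g.s = 1 := by
    exact_mod_cast h3
  refine Isometry.of_dist_eq fun x y => ?_
  rw [← sq_eq_sq₀ dist_nonneg dist_nonneg, dsq, dsq]
  simp only [F, U_pt, V_pt]
  linear_combination (U x - U y) ^ 2 * h1' + (V x - V y) ^ 2 * h2' +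
    (U x - U y) * (V x - V y) * h3'

lemma F_surj {g : Aff} (hg : lin g ∈ D6) : Function.Surjective (F g) := by
  obtain ⟨-, -, -, h4⟩ := D6_facts _ hg
  simp only [lin] at h4
  have h4' : ((g.p : ℝ) * g.s - g.q * g.r) ^ 2 = 1 := by exact_mod_cast h4
  intro y
  refine ⟨pt ((g.p * g.s - g.q * g.r) * (g.s * (U y - g.a) - g.q * (V y - g.b)))
    ((g.p * g.s - g.q * g.r) * (g.p * (V y - g.b) - g.r * (U y - g.a))), ext_UV ?_ ?_⟩
  · simp only [F, U_pt, V_pt]; linear_combination (U y - g.a) * h4'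
  · simp only [F, U_pt, V_pt]; linear_combination (V y - g.b) * h4'

open Classical in
noncomputable def io (g : Aff) : E ≃ᵢ E :=
  if hg : lin g ∈ D6 then ⟨Equiv.ofBijective (F g) ⟨(F_iso hg).injective, F_surj hg⟩, F_iso hg⟩
  else 1

lemma io_apply {g : Aff} (hg : lin g ∈ D6) (z : E) : io g z = F g z := by
  simp only [io, dif_pos hg]; rfl

lemma io_mul {g h : Aff} (hg : lin g ∈ D6) (hh : lin h ∈ D6) : io (g * h) = io g * io h := by
  ext1 z
  rw [IsometryEquiv.mul_apply, io_apply (D6_mul hg hh), io_apply hg, io_apply hh, F_mul]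

lemma io_inj {g h : Aff} (hg : lin g ∈ D6) (hh : lin h ∈ D6) (e : io g = io h) : g = h := by
  have k : ∀ u v : ℝ, g.p * u + g.q * v + g.a = h.p * u + h.q * v + h.a ∧
      g.r * u + g.s * v + g.b = h.r * u + h.s * v + h.b := by
    intro u v
    have : F g (pt u v) = F h (pt u v) := by rw [← io_apply hg, ← io_apply hh, e]
    have e1 := congrArg U this
    have e2 := congrArg V this
    simp only [F, U_pt, V_pt] at e1 e2
    exact ⟨e1, e2⟩
  obtain ⟨a1, a2⟩ := k 0 0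
  obtain ⟨b1, b2⟩ := k 1 0
  obtain ⟨c1, c2⟩ := k 0 1
  ext <;> apply Int.cast_injective (α := ℝ) <;> linarith

def inL (x y : ℤ) (α β : ℝ) : Prop :=
  (x % 2 = 1 → |α| ≤ 1) ∧ (y % 2 = 1 → |β| ≤ 1) ∧ ((x + y) % 2 = 1 → |α + β| ≤ 1)

/-- the rhombus whose short diagonal is the grid edge with midpoint (x/2, y/2) -/
def loz (x y : ℤ) : Set E := {z | inL x y (2 * U z - x) (2 * V z - y)}

lemma inL_act {p q r s : ℤ} (h : (p, q, r, s) ∈ D6) (a b x y : ℤ) (α β : ℝ) :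
    inL (p * x + q * y + 2 * a) (r * x + s * y + 2 * b) (p * α + q * β) (r * α + s * β) ↔
      inL x y α β := by
  simp only [D6, List.mem_cons, Prod.mk.injEq, List.not_mem_nil, or_false] at h
  simp only [inL, abs_le]
  rcases h with h | h | h | h | h | h | h | h | h | h | h | h <;>
    obtain ⟨rfl, rfl, rfl, rfl⟩ := h <;> push_cast <;> constructor <;> rintro ⟨h1, h2, h3⟩ <;>
    refine ⟨fun h => ?_, fun h => ?_, fun h => ?_⟩ <;>
    first
    | (obtain ⟨k1, k2⟩ := h1 (by omega); exact ⟨by linarith, by linarith⟩)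
    | (obtain ⟨k1, k2⟩ := h2 (by omega); exact ⟨by linarith, by linarith⟩)
    | (obtain ⟨k1, k2⟩ := h3 (by omega); exact ⟨by linarith, by linarith⟩)

lemma io_loz {g : Aff} (hg : lin g ∈ D6) (x y : ℤ) :
    io g '' loz x y = loz (g.p * x + g.q * y + 2 * g.a) (g.r * x + g.s * y + 2 * g.b) := by
  ext w
  obtain ⟨z, rfl⟩ := (io g).surjective w
  rw [(io g).injective.mem_set_image, io_apply hg]
  simp only [loz, mem_setOf_eq, F, U_pt, V_pt]
  rw [← inL_act hg g.a g.b x y]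
  push_cast
  congr! 1 <;> ring

lemma mem_P {z : E} : z ∈ loz 1 1 ↔ 0 ≤ U z ∧ U z ≤ 1 ∧ 0 ≤ V z ∧ V z ≤ 1 := by
  simp only [loz, inL, mem_setOf_eq, abs_le]
  norm_num
  constructor
  · rintro ⟨⟨h1, h2⟩, h3, h4⟩; exact ⟨by linarith, by linarith, by linarith, by linarith⟩
  · rintro ⟨h1, h2, h3, h4⟩; exact ⟨⟨by linarith, by linarith⟩, by linarith, by linarith⟩

lemma loz_eq {x y : ℤ} (h : x % 2 = 1 ∨ y % 2 = 1) :
    ∃ g : Aff, lin g ∈ D6 ∧ loz x y = io g '' loz 1 1 := by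
  rcases (by omega : (x % 2 = 1 ∧ y % 2 = 1) ∨ (x % 2 = 1 ∧ y % 2 = 0) ∨ (x % 2 = 0 ∧ y % 2 = 1))
    with h | h | h
  · refine ⟨⟨1, 0, 0, 1, (x - 1) / 2, (y - 1) / 2⟩, by simp [lin, D6], ?_⟩
    rw [io_loz (by simp [lin, D6])]; congr 1 <;> simp only <;> omega
  · refine ⟨⟨0, -1, 1, 1, (x + 1) / 2, (y - 2) / 2⟩, by simp [lin, D6], ?_⟩
    rw [io_loz (by simp [lin, D6])]; congr 1 <;> simp only <;> omega
  · refine ⟨⟨1, 1, -1, 0, (x - 2) / 2, (y + 1) / 2⟩, by simp [lin, D6], ?_⟩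
    rw [io_loz (by simp [lin, D6])]; congr 1 <;> simp only <;> omega

lemma iso_ext {h k : E ≃ᵢ E} (h0 : h (pt 0 0) = k (pt 0 0)) (h1 : h (pt 1 1) = k (pt 1 1))
    (h2 : h (pt 1 0) = k (pt 1 0)) : h = k := by
  ext1 x
  obtain ⟨y, hy⟩ := k.surjective (h x)
  have key : ∀ w, h w = k w → dist x w ^ 2 = dist y w ^ 2 := by
    intro w hw
    rw [← h.dist_eq x w, ← k.dist_eq y w, hy, hw]
  have a0 := key _ h0
  have a1 := key _ h1
  have a2 := key _ h2
  simp only [dsq, U_pt, V_pt] at a0 a1 a2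
  rw [← hy]; congr 1
  exact ext_UV (by linarith) (by linarith)

lemma rigid {h : E ≃ᵢ E} (hP : MapsTo h (loz 1 1) (loz 1 1)) :
    ∃ g : Aff, lin g ∈ D6 ∧ h = io g := by
  obtain ⟨a1, a2, a3, a4⟩ := mem_P.1 (hP (mem_P.2 (by simp) : pt 0 0 ∈ loz 1 1))
  obtain ⟨b1, b2, b3, b4⟩ := mem_P.1 (hP (mem_P.2 (by simp) : pt 1 1 ∈ loz 1 1))
  have d01 : dist (h (pt 0 0)) (h (pt 1 1)) ^ 2 = 3 := by
    rw [h.dist_eq, dsq]; simp; norm_num
  have d02 : dist (h (pt 1 0)) (h (pt 0 0)) ^ 2 = 1 := by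
    rw [h.dist_eq, dsq]; simp
  have d12 : dist (h (pt 1 0)) (h (pt 1 1)) ^ 2 = 1 := by
    rw [h.dist_eq, dsq]; simp
  rw [dsq] at d01 d02 d12
  have fin : ∀ g : Aff, lin g ∈ D6 → U (h (pt 0 0)) = g.a → V (h (pt 0 0)) = g.b →
      U (h (pt 1 1)) = g.p + g.q + g.a → V (h (pt 1 1)) = g.r + g.s + g.b →
      U (h (pt 1 0)) = g.p + g.a → V (h (pt 1 0)) = g.r + g.b → h = io g := by
    intro g hg e1 e2 e3 e4 e5 e6
    refine iso_ext ?_ ?_ ?_ <;> rw [io_apply hg] <;> apply ext_UV <;>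
      simp only [F, U_pt, V_pt] <;> linarith
  generalize U (h (pt 0 0)) = u0 at *
  generalize V (h (pt 0 0)) = v0 at *
  generalize U (h (pt 1 1)) = u1 at *
  generalize V (h (pt 1 1)) = v1 at *
  generalize U (h (pt 1 0)) = u2 at *
  generalize V (h (pt 1 0)) = v2 at *
  have s1 : (u0 - u1) ^ 2 ≤ 1 := by nlinarith
  have s2 : (v0 - v1) ^ 2 ≤ 1 := by nlinarith
  have s3 : u0 - u1 = v0 - v1 := by
    have : (u0 - u1 - (v0 - v1)) ^ 2 ≤ 0 := by nlinarith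
    nlinarith
  have s4 : (u0 - u1 - 1) * (u0 - u1 + 1) = 0 := by
    rw [← s3] at d01; linear_combination d01 / 3
  rcases mul_eq_zero.1 s4 with s | s
  · have e1 : u0 = 1 := by linarith
    have e2 : u1 = 0 := by linarith
    have e3 : v0 = 1 := by linarith
    have e4 : v1 = 0 := by linarith
    subst e1 e2 e3 e4
    have e5 : v2 = 1 - u2 := by linear_combination (d12 - d02) / 3
    subst e5
    have e6 : u2 * (u2 - 1) = 0 := by linear_combination d12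
    rcases mul_eq_zero.1 e6 with e | e
    · exact ⟨⟨-1, 0, 0, -1, 1, 1⟩, by simp [lin, D6], fin _ (by simp [lin, D6]) (by simp) (by simp)
        (by simp) (by simp) (by simp; linarith) (by simp; linarith)⟩
    · exact ⟨⟨0, -1, -1, 0, 1, 1⟩, by simp [lin, D6], fin _ (by simp [lin, D6]) (by simp) (by simp)
        (by simp) (by simp) (by simp; linarith) (by simp; linarith)⟩
  · have e1 : u0 = 0 := by linarith
    have e2 : u1 = 1 := by linarith
    have e3 : v0 = 0 := by linarith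
    have e4 : v1 = 1 := by linarith
    subst e1 e2 e3 e4
    have e5 : v2 = 1 - u2 := by linear_combination (d02 - d12) / 3
    subst e5
    have e6 : u2 * (u2 - 1) = 0 := by linear_combination d02
    rcases mul_eq_zero.1 e6 with e | e
    · exact ⟨⟨0, 1, 1, 0, 0, 0⟩, by simp [lin, D6], fin _ (by simp [lin, D6]) (by simp) (by simp)
        (by simp) (by simp) (by simp; linarith) (by simp; linarith)⟩
    · exact ⟨⟨1, 0, 0, 1, 0, 0⟩, by simp [lin, D6], fin _ (by simp [lin, D6]) (by simp) (by simp)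
        (by simp) (by simp) (by simp; linarith) (by simp; linarith)⟩

lemma rigid' {h : E ≃ᵢ E} {x y : ℤ} (hv : x % 2 = 1 ∨ y % 2 = 1) (hP : h '' loz 1 1 = loz x y) :
    ∃ g : Aff, lin g ∈ D6 ∧ h = io g := by
  obtain ⟨g, hg, e⟩ := loz_eq hv
  have : MapsTo ((io g)⁻¹ * h) (loz 1 1) (loz 1 1) := by
    intro z hz
    have : h z ∈ io g '' loz 1 1 := by rw [← e, ← hP]; exact mem_image_of_mem _ hz
    obtain ⟨w, hw, e'⟩ := this
    rw [IsometryEquiv.mul_apply, ← e', IsometryEquiv.inv_apply_self]; exact hw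
  obtain ⟨k, hk, e'⟩ := rigid this
  exact ⟨g * k, D6_mul hg hk, by rw [io_mul hg hk, ← e']; group⟩

/-- open and closed cells of the triangular grid -/
def Gen (z : E) (i j l : ℤ) : Prop :=
  (i < U z ∧ U z < i + 1) ∧ (j < V z ∧ V z < j + 1) ∧ (l < U z + V z ∧ U z + V z < l + 1)
def Cl (z : E) (i j l : ℤ) : Prop :=
  (i ≤ U z ∧ U z ≤ i + 1) ∧ (j ≤ V z ∧ V z ≤ j + 1) ∧ (l ≤ U z + V z ∧ U z + V z ≤ l + 1)
def Pin (x y i j l : ℤ) : Prop :=
  (x % 2 = 1 → x = 2 * i + 1) ∧ (y % 2 = 1 → y = 2 * j + 1) ∧ ((x + y) % 2 = 1 → x + y = 2 * l + 1)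

lemma odd_pin {u : ℝ} {i x : ℤ} (h1 : i < u) (h2 : u < i + 1) (hx : x % 2 = 1)
    (h : |2 * u - x| ≤ 1) : x = 2 * i + 1 := by
  rw [abs_le] at h
  have a1 : 2 * i - 1 < x := by exact_mod_cast (by linarith [h.2] : 2 * (i : ℝ) - 1 < x)
  have a2 : x < 2 * i + 3 := by exact_mod_cast (by linarith [h.1] : (x : ℝ) < 2 * i + 3)
  omega

lemma pin {z : E} {i j l x y : ℤ} (hz : Gen z i j l) (h : z ∈ loz x y) : Pin x y i j l := by
  obtain ⟨⟨h1, h2⟩, ⟨h3, h4⟩, h5, h6⟩ := hz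
  refine ⟨fun k => odd_pin h1 h2 k (h.1 k), fun k => odd_pin h3 h4 k (h.2.1 k),
    fun k => odd_pin h5 h6 k ?_⟩
  have := h.2.2 k
  push_cast
  convert this using 2; ring

lemma unpin {z : E} {i j l x y : ℤ} (hz : Cl z i j l) (h : Pin x y i j l) : z ∈ loz x y := by
  obtain ⟨⟨h1, h2⟩, ⟨h3, h4⟩, h5, h6⟩ := hz
  refine ⟨fun k => ?_, fun k => ?_, fun k => ?_⟩ <;> rw [abs_le]
  · have : (x : ℝ) = 2 * i + 1 := by exact_mod_cast h.1 k
    constructor <;> linarith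
  · have : (y : ℝ) = 2 * j + 1 := by exact_mod_cast h.2.1 k
    constructor <;> linarith
  · have : (x : ℝ) + y = 2 * l + 1 := by exact_mod_cast h.2.2 k
    constructor <;> linarith

lemma Gen.cl {z : E} {i j l : ℤ} (hz : Gen z i j l) : Cl z i j l :=
  ⟨⟨hz.1.1.le, hz.1.2.le⟩, ⟨hz.2.1.1.le, hz.2.1.2.le⟩, hz.2.2.1.le, hz.2.2.2.le⟩

lemma Gen.par {z : E} {i j l : ℤ} (hz : Gen z i j l) : l = i + j ∨ l = i + j + 1 := by
  obtain ⟨⟨h1, h2⟩, ⟨h3, h4⟩, h5, h6⟩ := hz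
  have a1 : l < i + j + 2 := by exact_mod_cast (by linarith : (l : ℝ) < i + j + 2)
  have a2 : i + j < l + 1 := by exact_mod_cast (by linarith : (i : ℝ) + j < l + 1)
  omega

lemma loz_inj {x y x' y' : ℤ} (hv : x % 2 = 1 ∨ y % 2 = 1) (hv' : x' % 2 = 1 ∨ y' % 2 = 1)
    (e : loz x y = loz x' y') : x = x' ∧ y = y' := by
  have up : ∀ i j : ℤ, Pin x y i j (i + j) → Pin x' y' i j (i + j) := by
    intro i j h
    have g : Gen (pt (i + 1 / 3) (j + 1 / 3)) i j (i + j) := by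
      simp only [Gen, U_pt, V_pt]; push_cast
      refine ⟨⟨?_, ?_⟩, ⟨?_, ?_⟩, ?_, ?_⟩ <;> linarith
    exact pin g (e ▸ unpin g.cl h)
  have dn : ∀ i j : ℤ, Pin x y i j (i + j + 1) → Pin x' y' i j (i + j + 1) := by
    intro i j h
    have g : Gen (pt (i + 2 / 3) (j + 2 / 3)) i j (i + j + 1) := by
      simp only [Gen, U_pt, V_pt]; push_cast
      refine ⟨⟨?_, ?_⟩, ⟨?_, ?_⟩, ?_, ?_⟩ <;> linarith
    exact pin g (e ▸ unpin g.cl h)
  have h1 := up (x / 2) (y / 2) (by simp only [Pin]; omega)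
  have h2 := dn ((x - 1) / 2) ((y - 1) / 2) (by simp only [Pin]; omega)
  simp only [Pin] at h1 h2
  omega

lemma gen_dense {O : Set E} (hO : IsOpen O) {x : E} (hx : x ∈ O) :
    ∃ y ∈ O, ∃ i j l, Gen y i j l := by
  let B : Set ℝ := range (fun n : ℤ => n - U x) ∪ range (fun n : ℤ => n - V x) ∪
    range (fun n : ℤ => (n - U x - V x) / 2)
  have hB : B.Countable := ((countable_range _).union (countable_range _)).union (countable_range _)
  have hO' : IsOpen {t : ℝ | pt (U x + t) (V x + t) ∈ O} :=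
    hO.preimage (f := fun t : ℝ => pt (U x + t) (V x + t)) (by fun_prop)
  obtain ⟨t, ht, htB⟩ := (hB.dense_compl ℝ).inter_open_nonempty _ hO'
    ⟨0, by simpa [pt_UV] using hx⟩
  simp only [B, mem_compl_iff, mem_union, mem_range, not_or, not_exists] at htB
  obtain ⟨⟨b1, b2⟩, b3⟩ := htB
  refine ⟨_, ht, ⌊U x + t⌋, ⌊V x + t⌋, ⌊U x + t + (V x + t)⌋, ?_⟩
  simp only [Gen, U_pt, V_pt]
  refine ⟨⟨lt_of_le_of_ne (Int.floor_le _) fun h => b1 ⌊U x + t⌋ (by linarith),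
    Int.lt_floor_add_one _⟩, ⟨lt_of_le_of_ne (Int.floor_le _) fun h => b2 ⌊V x + t⌋ (by linarith),
    Int.lt_floor_add_one _⟩, lt_of_le_of_ne (Int.floor_le _)
      fun h => b3 ⌊U x + t + (V x + t)⌋ (by linarith), Int.lt_floor_add_one _⟩

lemma cl_ex (z : E) : ∃ i j e : ℤ, (e = 0 ∨ e = 1) ∧ Cl z i j (i + j + e) := by
  have h1 := Int.floor_le (U z)
  have h2 := Int.lt_floor_add_one (U z)
  have h3 := Int.floor_le (V z)
  have h4 := Int.lt_floor_add_one (V z)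
  rcases le_total (U z + V z) (⌊U z⌋ + ⌊V z⌋ + 1) with h | h
  · refine ⟨⌊U z⌋, ⌊V z⌋, 0, Or.inl rfl, ⟨h1, h2.le⟩, ⟨h3, h4.le⟩, ?_, ?_⟩ <;> push_cast <;>
      linarith
  · refine ⟨⌊U z⌋, ⌊V z⌋, 1, Or.inr rfl, ⟨h1, h2.le⟩, ⟨h3, h4.le⟩, ?_, ?_⟩ <;> push_cast <;>
      linarith

lemma P_open : {z : E | 0 < U z ∧ U z < 1 ∧ 0 < V z ∧ V z < 1} ⊆ interior (loz 1 1) := by
  refine interior_maximal (fun y hy => mem_P.2 ⟨hy.1.le, hy.2.1.le, hy.2.2.1.le, hy.2.2.2.le⟩) ?_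
  simp only [setOf_and]
  exact (isOpen_lt (by fun_prop) (by fun_prop)).inter ((isOpen_lt (by fun_prop)
    (by fun_prop)).inter ((isOpen_lt (by fun_prop) (by fun_prop)).inter
    (isOpen_lt (by fun_prop) (by fun_prop))))

lemma P_closed : IsClosed (loz 1 1) := by
  have : loz 1 1 = {z : E | 0 ≤ U z ∧ U z ≤ 1 ∧ 0 ≤ V z ∧ V z ≤ 1} := by ext; exact mem_P
  rw [this]
  simp only [setOf_and]
  exact (isClosed_le (by fun_prop) (by fun_prop)).inter ((isClosed_le (by fun_prop)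
    (by fun_prop)).inter ((isClosed_le (by fun_prop) (by fun_prop)).inter
    (isClosed_le (by fun_prop) (by fun_prop))))

lemma P_disc : Nonempty (loz 1 1 ≃ₜ closedBall (0 : E) 1) := by
  have hc : Convex ℝ (loz 1 1) := by
    intro x hx y hy a b ha hb hab
    obtain ⟨h1, h2, h3, h4⟩ := mem_P.1 hx
    obtain ⟨g1, g2, g3, g4⟩ := mem_P.1 hy
    rw [mem_P, U_lin, V_lin]
    refine ⟨?_, ?_, ?_, ?_⟩ <;> nlinarith [mul_nonneg ha h3, mul_nonneg hb g3]
  have hne : (interior (loz 1 1)).Nonempty :=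
    ⟨pt (1 / 2) (1 / 2), P_open (by simp only [mem_setOf_eq, U_pt, V_pt]; norm_num)⟩
  have hb : Bornology.IsBounded (loz 1 1) := by
    refine (isBounded_closedBall (x := pt 0 0) (r := 2)).subset fun y hy => ?_
    obtain ⟨h1, h2, h3, h4⟩ := mem_P.1 hy
    rw [mem_closedBall, ← sq_le_sq₀ dist_nonneg (by norm_num), dsq]
    simp only [U_pt, V_pt]; nlinarith
  obtain ⟨g, -, hg, -⟩ := exists_homeomorph_image_interior_closure_frontier_eq_unitBall hc hne hb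
  rw [P_closed.closure_eq] at hg
  exact ⟨(g.image _).trans (Homeomorph.setCongr hg)⟩

lemma P_poly : ∃ s : Finset (E × E), frontier (loz 1 1) ⊆ ⋃ p ∈ s, segment ℝ p.1 p.2 := by
  classical
  refine ⟨{(pt 0 0, pt 0 1), (pt 1 0, pt 1 1), (pt 0 0, pt 1 0), (pt 0 1, pt 1 1)}, fun z hz => ?_⟩
  rw [P_closed.frontier_eq] at hz
  obtain ⟨h1, h2, h3, h4⟩ := mem_P.1 hz.1
  have h : U z = 0 ∨ U z = 1 ∨ V z = 0 ∨ V z = 1 := by
    by_contra hc
    push Not at hc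
    exact hz.2 (P_open ⟨lt_of_le_of_ne h1 hc.1.symm, lt_of_le_of_ne h2 hc.2.1,
      lt_of_le_of_ne h3 hc.2.2.1.symm, lt_of_le_of_ne h4 hc.2.2.2⟩)
  simp only [mem_iUnion, exists_prop]
  rcases h with h | h | h | h
  · exact ⟨(pt 0 0, pt 0 1), by simp, 1 - V z, V z, by linarith, h3, by ring,
      ext_UV (by simp [U_lin, h]) (by simp [V_lin])⟩
  · exact ⟨(pt 1 0, pt 1 1), by simp, 1 - V z, V z, by linarith, h3, by ring,
      ext_UV (by simp [U_lin, h]) (by simp [V_lin])⟩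
  · exact ⟨(pt 0 0, pt 1 0), by simp, 1 - U z, U z, by linarith, h1, by ring,
      ext_UV (by simp [U_lin]) (by simp [V_lin, h])⟩
  · exact ⟨(pt 0 1, pt 1 1), by simp, 1 - U z, U z, by linarith, h1, by ring,
      ext_UV (by simp [U_lin]) (by simp [V_lin, h])⟩

lemma P_not_tri (a b c : E) : loz 1 1 ≠ convexHull ℝ {a, b, c} := by
  intro h
  have key : ∀ u v : ℝ, (u = 0 ∨ u = 1) → (v = 0 ∨ v = 1) → pt u v ∈ ({a, b, c} : Set E) := by
    intro u v hu hv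
    apply extremePoints_convexHull_subset (𝕜 := ℝ)
    rw [← h, mem_extremePoints_iff_left]
    refine ⟨mem_P.2 (by rcases hu with rfl | rfl <;> rcases hv with rfl | rfl <;> simp), ?_⟩
    rintro x hx y hy ⟨s, t, hs, ht, hst, e⟩
    obtain ⟨h1, h2, h3, h4⟩ := mem_P.1 hx
    obtain ⟨g1, g2, g3, g4⟩ := mem_P.1 hy
    have e1 := congrArg U e
    have e2 := congrArg V e
    rw [U_lin, U_pt] at e1
    rw [V_lin, V_pt] at e2
    refine ext_UV ?_ ?_
    · rw [U_pt]; rcases hu with rfl | rfl <;> nlinarith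
    · rw [V_pt]; rcases hv with rfl | rfl <;> nlinarith
  have k1 := key 0 0 (by simp) (by simp)
  have k2 := key 1 0 (by simp) (by simp)
  have k3 := key 0 1 (by simp) (by simp)
  have k4 := key 1 1 (by simp) (by simp)
  have ne : ∀ u v u' v' : ℝ, (u ≠ u' ∨ v ≠ v') → pt u v ≠ pt u' v' := by
    intro u v u' v' h e
    have e1 := congrArg U e
    have e2 := congrArg V e
    simp only [U_pt, V_pt] at e1 e2
    tauto
  have n12 := ne 0 0 1 0 (by simp)
  have n13 := ne 0 0 0 1 (by simp)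
  have n14 := ne 0 0 1 1 (by simp)
  have n23 := ne 1 0 0 1 (by simp)
  have n24 := ne 1 0 1 1 (by simp)
  have n34 := ne 0 1 1 1 (by simp)
  generalize pt 0 0 = w1 at *
  generalize pt 1 0 = w2 at *
  generalize pt 0 1 = w3 at *
  generalize pt 1 1 = w4 at *
  simp only [mem_insert_iff, mem_singleton_iff] at k1 k2 k3 k4
  clear h key ne
  rcases k1 with k1 | k1 | k1 <;> rcases k2 with k2 | k2 | k2 <;> rcases k3 with k3 | k3 | k3 <;>
    rcases k4 with k4 | k4 | k4 <;>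
    first
    | exact n12 (k1.trans k2.symm)
    | exact n13 (k1.trans k3.symm)
    | exact n14 (k1.trans k4.symm)
    | exact n23 (k2.trans k3.symm)
    | exact n24 (k2.trans k4.symm)
    | exact n34 (k3.trans k4.symm)

end Pool.Agent.H.Rhomb
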