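import Mathlib

set_option autoImplicit false

namespace Pool.Agent.H.Rhomb

section Sentences
variable {M : Type*} [Monoid M] (R : M → Prop)

def O3 : Prop := ∃ g, R g ∧ g ≠ 1 ∧ g * g * g = 1
def HT : Prop := ∃ s, R s ∧ s ≠ 1 ∧
  ∀ g, R g → s * (g * g * g * (g * g * g)) * (s * (g * g * g * (g * g * g))) = 1
def RF : Prop := ∃ s, R s ∧ ∃ g, R g ∧ s ≠ 1 ∧ s * s = 1 ∧ s * g = g * s ∧
  g * g * g * (g * g * g) ≠ 1
def AB : Prop := ∀ g, R g → ∀ h, R h → g * h = h * g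
def CJ : Prop := ∀ s, R s → ∀ s', R s' → s ≠ 1 → s * s = 1 → s' ≠ 1 → s' * s' = 1 →
  ∃ u, R u ∧ u * s = s' * u
def P2 : Prop := ∀ g, R g → ∀ h, R h → g * g ≠ 1 → h * h ≠ 1 → g * h = h * g
def K4 : Prop := ∃ s, R s ∧ ∃ s', R s' ∧ s ≠ 1 ∧ s' ≠ 1 ∧ s ≠ s' ∧ s * s = 1 ∧ s' * s' = 1 ∧
  s * s' = s' * s
def KA : Prop := ∀ s, R s → s ≠ 1 → s * s = 1 →
  ∃ s', R s' ∧ s' ≠ 1 ∧ s' ≠ s ∧ s' * s' = 1 ∧ s * s' = s' * s
def I3 : Prop := ∀ g, R g → g ≠ 1 → g * g * g = 1 → ∃ s, R s ∧ s * s = 1 ∧ s * g * (s * g) = 1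

/-- fourteen mutually exclusive first order properties -/
def Ty : Fin 14 → Prop
  | 0 => ¬ O3 R ∧ ¬ HT R ∧ ¬ RF R ∧ AB R
  | 1 => ¬ O3 R ∧ ¬ HT R ∧ ¬ RF R ∧ ¬ AB R
  | 2 => ¬ O3 R ∧ ¬ HT R ∧ RF R ∧ ¬ CJ R
  | 3 => ¬ O3 R ∧ ¬ HT R ∧ RF R ∧ CJ R
  | 4 => ¬ O3 R ∧ HT R ∧ ¬ RF R ∧ P2 R
  | 5 => ¬ O3 R ∧ HT R ∧ ¬ RF R ∧ ¬ P2 R
  | 6 => ¬ O3 R ∧ HT R ∧ RF R ∧ ¬ K4 R
  | 7 => ¬ O3 R ∧ HT R ∧ RF R ∧ K4 R ∧ KA R
  | 8 => ¬ O3 R ∧ HT R ∧ RF R ∧ K4 R ∧ ¬ KA R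
  | 9 => O3 R ∧ ¬ HT R ∧ ¬ RF R
  | 10 => O3 R ∧ ¬ HT R ∧ RF R ∧ I3 R
  | 11 => O3 R ∧ ¬ HT R ∧ RF R ∧ ¬ I3 R
  | 12 => O3 R ∧ HT R ∧ ¬ RF R
  | 13 => O3 R ∧ HT R ∧ RF R

open Classical in
noncomputable def idx : Fin 14 :=
  if O3 R then
    if HT R then (if RF R then 13 else 12)
    else (if RF R then (if I3 R then 10 else 11) else 9)
  else if HT R then
    if RF R then (if K4 R then (if KA R then 7 else 8) else 6) else (if P2 R then 4 else 5)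
  else if RF R then (if CJ R then 3 else 2) else (if AB R then 0 else 1)

lemma Ty_idx {i : Fin 14} (hi : Ty R i) : idx R = i := by
  fin_cases i <;> simp only [Ty] at hi <;> simp only [idx, hi, if_true, if_false] <;> rfl

lemma Ty_excl {i j : Fin 14} (hi : Ty R i) (hj : Ty R j) : i = j :=
  (Ty_idx R hi).symm.trans (Ty_idx R hj)

end Sentences

lemma Ty_iso {M N : Type*} [Monoid M] [Monoid N] (e : M ≃* N) (i : Fin 14) :
    Ty (fun _ : N => True) i ↔ Ty (fun _ : M => True) i := by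
  have h1 : O3 (fun _ : N => True) ↔ O3 (fun _ : M => True) := by
    simp only [O3, e.surjective.exists, ← map_mul, ne_eq, MulEquiv.map_eq_one_iff]
  have h2 : HT (fun _ : N => True) ↔ HT (fun _ : M => True) := by
    simp only [HT, e.surjective.exists, e.surjective.forall, ← map_mul, ne_eq,
      MulEquiv.map_eq_one_iff]
  have h3 : RF (fun _ : N => True) ↔ RF (fun _ : M => True) := by
    simp only [RF, e.surjective.exists, ← map_mul, ne_eq, MulEquiv.map_eq_one_iff,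
      EmbeddingLike.apply_eq_iff_eq]
  have h4 : AB (fun _ : N => True) ↔ AB (fun _ : M => True) := by
    simp only [AB, e.surjective.forall, ← map_mul, EmbeddingLike.apply_eq_iff_eq]
  have h5 : CJ (fun _ : N => True) ↔ CJ (fun _ : M => True) := by
    simp only [CJ, e.surjective.exists, e.surjective.forall, ← map_mul, ne_eq,
      MulEquiv.map_eq_one_iff, EmbeddingLike.apply_eq_iff_eq]
  have h6 : P2 (fun _ : N => True) ↔ P2 (fun _ : M => True) := by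
    simp only [P2, e.surjective.forall, ← map_mul, ne_eq,
      MulEquiv.map_eq_one_iff, EmbeddingLike.apply_eq_iff_eq]
  have h7 : K4 (fun _ : N => True) ↔ K4 (fun _ : M => True) := by
    simp only [K4, e.surjective.exists, ← map_mul, ne_eq,
      MulEquiv.map_eq_one_iff, EmbeddingLike.apply_eq_iff_eq]
  have h8 : KA (fun _ : N => True) ↔ KA (fun _ : M => True) := by
    simp only [KA, e.surjective.exists, e.surjective.forall, ← map_mul, ne_eq,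
      MulEquiv.map_eq_one_iff, EmbeddingLike.apply_eq_iff_eq]
  have h9 : I3 (fun _ : N => True) ↔ I3 (fun _ : M => True) := by
    simp only [I3, e.surjective.exists, e.surjective.forall, ← map_mul, ne_eq,
      MulEquiv.map_eq_one_iff]
  fin_cases i <;> simp only [Ty, h1, h2, h3, h4, h5, h6, h7, h8, h9]

lemma Ty_sub {M : Type*} [Monoid M] (S : Submonoid M) (i : Fin 14) :
    Ty (fun _ : S => True) i ↔ Ty (fun g => g ∈ S) i := by
  fin_cases i <;>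
    simp only [Ty, O3, HT, RF, AB, CJ, P2, K4, KA, I3, Subtype.exists, Subtype.forall, ne_eq,
      Subtype.ext_iff, Submonoid.coe_mul, Submonoid.coe_one, true_and, forall_true_left,
      exists_prop]

end Pool.Agent.H.Rhomb
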