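import Pool.Agent.H.MP_fa5b42_co.A
import Pool.Agent.H.MP_fa5b42_co.S

set_option autoImplicit false

namespace Pool.Agent.H.Rhomb
open Set Metric

/-- a periodic set of grid edges, stored as a bit mask, and the list of its symmetries -/
structure Dat where
  n1 : ℕ
  n2 : ℕ
  n : ℕ
  mask : ℕ
  sy : List ((ℤ × ℤ × ℤ × ℤ) × ℤ × ℤ)

def D (t : Dat) (x y : ℤ) : Bool :=
  t.mask.testBit ((x % (2 * t.n1)).toNat * (2 * t.n2) + (y % (2 * t.n2)).toNat)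

def rg (n : ℕ) : List ℤ := (List.range n).map fun k : ℕ => (k : ℤ)

lemma mem_rg {n : ℕ} (hn : 0 < n) (x : ℤ) : x % n ∈ rg n := by
  have h1 : 0 ≤ x % n := Int.emod_nonneg _ (by omega)
  have h2 : x % n < n := Int.emod_lt_of_pos _ (by omega)
  simp only [rg, List.mem_map, List.mem_range]
  exact ⟨(x % n).toNat, by omega, by omega⟩

def One3 (a b c : Bool) : Prop :=
  (a = true ∨ b = true ∨ c = true) ∧ ¬ (a = true ∧ b = true) ∧ ¬ (a = true ∧ c = true) ∧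
    ¬ (b = true ∧ c = true)

instance (a b c : Bool) : Decidable (One3 a b c) := by unfold One3; infer_instance

def Pr (t : Dat) (m : ℤ × ℤ × ℤ × ℤ) (a b : ℤ) : Prop :=
  ∀ x ∈ rg (2 * t.n), ∀ y ∈ rg (2 * t.n),
    D t (m.1 * x + m.2.1 * y + 2 * a) (m.2.2.1 * x + m.2.2.2 * y + 2 * b) = D t x y

instance (t : Dat) (m : ℤ × ℤ × ℤ × ℤ) (a b : ℤ) : Decidable (Pr t m a b) := by
  unfold Pr; infer_instance

def Good (t : Dat) : Prop :=
  (0 < t.n1 ∧ 0 < t.n2 ∧ 0 < t.n ∧ t.n % t.n1 = 0 ∧ t.n % t.n2 = 0 ∧ D t 1 1 = true) ∧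
  (∀ i ∈ rg t.n, ∀ j ∈ rg t.n, D t (2 * i) (2 * j) = false ∧ ∀ e ∈ [(0 : ℤ), 1],
    One3 (D t (2 * i + 1) (2 * j + 1)) (D t (2 * i + 1) (2 * j + 2 * e))
      (D t (2 * i + 2 * e) (2 * j + 1))) ∧
  (∀ s ∈ t.sy, s.1 ∈ D6 ∧ Pr t s.1 s.2.1 s.2.2) ∧
  (∀ m ∈ D6, ∀ a ∈ rg t.n1, ∀ b ∈ rg t.n2, Pr t m a b → (m, a, b) ∈ t.sy)

instance (t : Dat) : Decidable (Good t) := by unfold Good; infer_instance

lemma D_congr (t : Dat) {x y x' y' : ℤ} (hx : x ≡ x' [ZMOD 2 * t.n1])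
    (hy : y ≡ y' [ZMOD 2 * t.n2]) : D t x y = D t x' y' := by
  simp only [D]; rw [hx, hy]

lemma Good.d1 {t : Dat} (h : Good t) : (t.n1 : ℤ) ∣ t.n :=
  Int.natCast_dvd_natCast.2 (Nat.dvd_of_mod_eq_zero h.1.2.2.2.1)
lemma Good.d2 {t : Dat} (h : Good t) : (t.n2 : ℤ) ∣ t.n :=
  Int.natCast_dvd_natCast.2 (Nat.dvd_of_mod_eq_zero h.1.2.2.2.2.1)

lemma Good.tri {t : Dat} (h : Good t) (i j : ℤ) : D t (2 * i) (2 * j) = false ∧
    ∀ e : ℤ, e = 0 ∨ e = 1 → One3 (D t (2 * i + 1) (2 * j + 1)) (D t (2 * i + 1) (2 * j + 2 * e))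
      (D t (2 * i + 2 * e) (2 * j + 1)) := by
  have hi : 2 * (i % t.n) ≡ 2 * i [ZMOD 2 * t.n1] :=
    ((Int.mod_modEq i t.n).of_dvd h.d1).mul_left'
  have hj : 2 * (j % t.n) ≡ 2 * j [ZMOD 2 * t.n2] :=
    ((Int.mod_modEq j t.n).of_dvd h.d2).mul_left'
  obtain ⟨k1, k2⟩ := h.2.1 _ (mem_rg h.1.2.2.1 i) _ (mem_rg h.1.2.2.1 j)
  refine ⟨by rw [← D_congr t hi hj]; exact k1, fun e he => ?_⟩
  have := k2 e (by simpa using he)
  rwa [D_congr t (hi.add_right 1) (hj.add_right 1), D_congr t (hi.add_right 1) (hj.add_right _),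
    D_congr t (hi.add_right _) (hj.add_right 1)] at this

lemma Good.valid {t : Dat} (h : Good t) {x y : ℤ} (hD : D t x y = true) :
    x % 2 = 1 ∨ y % 2 = 1 := by
  by_contra hc
  have e1 : x = 2 * (x / 2) := by omega
  have e2 : y = 2 * (y / 2) := by omega
  rw [e1, e2, (h.tri _ _).1] at hD
  exact absurd hD (by simp)

def TT (t : Dat) : Set (Set E) := {A | ∃ x y, D t x y = true ∧ A = loz x y}

lemma Good.cover {t : Dat} (h : Good t) : ⋃₀ TT t = univ := by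
  refine eq_univ_of_forall fun z => ?_
  obtain ⟨i, j, e, he, hz⟩ := cl_ex z
  rcases ((h.tri i j).2 e he).1 with k | k | k <;>
    refine ⟨_, ⟨_, _, k, rfl⟩, unpin hz ⟨fun _ => ?_, fun _ => ?_, fun _ => ?_⟩⟩ <;> omega

lemma Good.disj {t : Dat} (h : Good t) :
    (TT t).Pairwise (fun A B => Disjoint (interior A) (interior B)) := by
  rintro _ ⟨x, y, hA, rfl⟩ _ ⟨x', y', hB, rfl⟩ hAB
  rw [Set.disjoint_left]
  intro z h1 h2
  obtain ⟨w, ⟨y1, y2⟩, i, j, l, hc⟩ := gen_dense (isOpen_interior.inter isOpen_interior)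
    (show z ∈ interior (loz x y) ∩ interior (loz x' y') from ⟨h1, h2⟩)
  have p1 := pin hc (interior_subset y1)
  have p2 := pin hc (interior_subset y2)
  have v1 := h.valid hA
  have v2 := h.valid hB
  have hl := hc.par
  obtain ⟨e, he, rfl⟩ : ∃ e : ℤ, (e = 0 ∨ e = 1) ∧ l = i + j + e := ⟨l - i - j, by omega, by ring⟩
  obtain ⟨-, k1, k2, k3⟩ := (h.tri i j).2 e he
  simp only [Pin] at p1 p2
  have c1 : (x = 2 * i + 1 ∧ y = 2 * j + 1) ∨ (x = 2 * i + 1 ∧ y = 2 * j + 2 * e) ∨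
      (x = 2 * i + 2 * e ∧ y = 2 * j + 1) := by omega
  have c2 : (x' = 2 * i + 1 ∧ y' = 2 * j + 1) ∨ (x' = 2 * i + 1 ∧ y' = 2 * j + 2 * e) ∨
      (x' = 2 * i + 2 * e ∧ y' = 2 * j + 1) := by omega
  rcases c1 with ⟨rfl, rfl⟩ | ⟨rfl, rfl⟩ | ⟨rfl, rfl⟩ <;>
    rcases c2 with ⟨rfl, rfl⟩ | ⟨rfl, rfl⟩ | ⟨rfl, rfl⟩ <;> tauto

/-- lattice isometries preserving the edge set -/
def Gs (t : Dat) : Submonoid Aff where
  carrier := {g | lin g ∈ D6 ∧ ∀ x y,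
    D t (g.p * x + g.q * y + 2 * g.a) (g.r * x + g.s * y + 2 * g.b) = D t x y}
  one_mem' := ⟨by simp [lin, D6, one_def], fun x y => by simp [one_def]⟩
  mul_mem' := by
    rintro g h ⟨g1, g2⟩ ⟨h1, h2⟩
    refine ⟨D6_mul g1 h1, fun x y => ?_⟩
    rw [← h2 x y, ← g2 (h.p * x + h.q * y + 2 * h.a)]
    simp only [mul_def]; congr 1 <;> ring

def RR (t : Dat) (g : Aff) : Prop := (lin g, g.a % t.n1, g.b % t.n2) ∈ t.sy

lemma Good.mem_iff {t : Dat} (h : Good t) (g : Aff) : g ∈ Gs t ↔ RR t g := by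
  have ha : 2 * (g.a % t.n1) ≡ 2 * g.a [ZMOD 2 * t.n1] := (Int.mod_modEq _ _).mul_left'
  have hb : 2 * (g.b % t.n2) ≡ 2 * g.b [ZMOD 2 * t.n2] := (Int.mod_modEq _ _).mul_left'
  constructor
  · rintro ⟨g1, g2⟩
    refine h.2.2.2 _ g1 _ (mem_rg h.1.1 _) _ (mem_rg h.1.2.1 _) fun x _ y _ => ?_
    rw [← g2 x y]
    exact D_congr t (ha.add_left _) (hb.add_left _)
  · intro hg
    obtain ⟨g1, g2⟩ := h.2.2.1 _ hg
    refine ⟨g1, fun x y => ?_⟩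
    have hn : 0 < 2 * t.n := by have := h.1.2.2.1; omega
    have := g2 _ (mem_rg hn x) _ (mem_rg hn y)
    have m1 : ∀ w : ℤ, w % ((2 * t.n : ℕ) : ℤ) ≡ w [ZMOD 2 * t.n1] := fun w =>
      (Int.mod_modEq w _).of_dvd (by push_cast; exact mul_dvd_mul_left 2 h.d1)
    have m2 : ∀ w : ℤ, w % ((2 * t.n : ℕ) : ℤ) ≡ w [ZMOD 2 * t.n2] := fun w =>
      (Int.mod_modEq w _).of_dvd (by push_cast; exact mul_dvd_mul_left 2 h.d2)
    rw [D_congr t (m1 x) (m2 y)] at this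
    rw [← this]
    exact (D_congr t ((((m1 x).mul_left _).add ((m1 y).mul_left _)).add ha)
      ((((m2 x).mul_left _).add ((m2 y).mul_left _)).add hb)).symm

def Sy (t : Dat) : Set (E ≃ᵢ E) := {g | (fun A : Set E => (⇑g) '' A) '' TT t = TT t}

lemma act_surj {g : Aff} (hg : lin g ∈ D6) (x y : ℤ) :
    ∃ x' y', g.p * x' + g.q * y' + 2 * g.a = x ∧ g.r * x' + g.s * y' + 2 * g.b = y := by
  obtain ⟨-, -, -, h4⟩ := D6_facts _ hg
  simp only [lin] at h4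
  refine ⟨(g.p * g.s - g.q * g.r) * (g.s * (x - 2 * g.a) - g.q * (y - 2 * g.b)),
    (g.p * g.s - g.q * g.r) * (g.p * (y - 2 * g.b) - g.r * (x - 2 * g.a)), ?_, ?_⟩
  · linear_combination (x - 2 * g.a) * h4
  · linear_combination (y - 2 * g.b) * h4

lemma act_valid {g : Aff} (hg : lin g ∈ D6) (x y : ℤ) :
    ((g.p * x + g.q * y + 2 * g.a) % 2 = 1 ∨ (g.r * x + g.s * y + 2 * g.b) % 2 = 1) ↔
      (x % 2 = 1 ∨ y % 2 = 1) := by
  obtain ⟨p, q, r, s, a, b⟩ := g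
  simp only [lin, D6, List.mem_cons, Prod.mk.injEq, List.not_mem_nil, or_false] at hg
  rcases hg with h | h | h | h | h | h | h | h | h | h | h | h <;>
    obtain ⟨rfl, rfl, rfl, rfl⟩ := h <;> simp only <;> omega

lemma io_mem_Sy {t : Dat} {g : Aff} (hg : g ∈ Gs t) : io g ∈ Sy t := by
  obtain ⟨g1, g2⟩ := hg
  ext A
  constructor
  · rintro ⟨_, ⟨x, y, hD, rfl⟩, rfl⟩
    exact ⟨_, _, (g2 x y).trans hD, io_loz g1 x y⟩
  · rintro ⟨x, y, hD, rfl⟩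
    obtain ⟨x', y', rfl, rfl⟩ := act_surj g1 x y
    exact ⟨_, ⟨x', y', (g2 x' y').symm.trans hD, rfl⟩, io_loz g1 x' y'⟩

lemma Good.sy_iff {t : Dat} (h : Good t) {k : E ≃ᵢ E} (hk : k ∈ Sy t) :
    ∃ g ∈ Gs t, io g = k := by
  have hk' : (fun A : Set E => (⇑k) '' A) '' TT t = TT t := hk
  obtain ⟨x0, y0, hD0, e0⟩ : k '' loz 1 1 ∈ TT t := by
    rw [← hk']; exact ⟨_, ⟨1, 1, h.1.2.2.2.2.2, rfl⟩, rfl⟩
  obtain ⟨g, hg, rfl⟩ := rigid' (h.valid hD0) e0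
  refine ⟨g, ⟨hg, fun x y => ?_⟩, rfl⟩
  rw [Bool.eq_iff_iff]
  constructor
  · intro hD
    obtain ⟨_, ⟨x', y', hD', rfl⟩, e⟩ : loz (g.p * x + g.q * y + 2 * g.a)
        (g.r * x + g.s * y + 2 * g.b) ∈ (fun A : Set E => (⇑(io g)) '' A) '' TT t := by
      rw [hk']; exact ⟨_, _, hD, rfl⟩
    simp only at e
    rw [← io_loz hg] at e
    have e' := (io g).injective.image_injective e
    obtain ⟨rfl, rfl⟩ := loz_inj (h.valid hD') ((act_valid hg x y).1 (h.valid hD)) e'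
    exact hD'
  · intro hD
    obtain ⟨x', y', hD', e⟩ : io g '' loz x y ∈ TT t := by
      rw [← hk']; exact ⟨_, ⟨x, y, hD, rfl⟩, rfl⟩
    rw [io_loz hg] at e
    obtain ⟨e1, e2⟩ := loz_inj ((act_valid hg x y).2 (h.valid hD)) (h.valid hD') e
    rw [e1, e2]; exact hD'

lemma iso_of {t t' : Dat} (h : Good t) (h' : Good t') (φ : (E ≃ᵢ E) → (E ≃ᵢ E))
    (hb : BijOn φ (Sy t) (Sy t')) (hm : ∀ g ∈ Sy t, ∀ k ∈ Sy t, φ (g * k) = φ g * φ k) :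
    Nonempty (Gs t ≃* Gs t') := by
  have : ∀ g : Gs t, ∃ g' : Gs t', io g'.1 = φ (io g.1) := fun g => by
    obtain ⟨g', h1, h2⟩ := h'.sy_iff (hb.mapsTo (io_mem_Sy g.2))
    exact ⟨⟨g', h1⟩, h2⟩
  choose ψ hψ using this
  refine ⟨MulEquiv.ofBijective (M := Gs t) (N := Gs t') (F := Gs t →ₙ* Gs t')
    ⟨ψ, fun g k => ?_⟩ ⟨fun g k e => ?_, fun g' => ?_⟩⟩
  · apply Subtype.ext
    refine io_inj (ψ _).2.1 (ψ g * ψ k).2.1 ?_
    rw [hψ, Submonoid.coe_mul, Submonoid.coe_mul, io_mul g.2.1 k.2.1,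
      io_mul (ψ g).2.1 (ψ k).2.1, hψ, hψ, hm _ (io_mem_Sy g.2) _ (io_mem_Sy k.2)]
  · have e' : ψ g = ψ k := e
    apply Subtype.ext
    refine io_inj g.2.1 k.2.1 (hb.injOn (io_mem_Sy g.2) (io_mem_Sy k.2) ?_)
    rw [← hψ, ← hψ, e']
  · obtain ⟨k, hk, e⟩ := hb.surjOn (io_mem_Sy g'.2)
    obtain ⟨g, hg, rfl⟩ := h.sy_iff hk
    refine ⟨⟨g, hg⟩, Subtype.ext (io_inj (ψ _).2.1 g'.2.1 ?_)⟩
    exact (hψ ⟨g, hg⟩).trans e

lemma Good.t1 {t : Dat} (h : Good t) : (⟨1, 0, 0, 1, t.n, 0⟩ : Aff) ∈ Gs t := by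
  refine ⟨by simp [lin, D6], fun x y => D_congr t ?_ (by simp)⟩
  simp only [one_mul, zero_mul, add_zero]
  exact (Int.modEq_iff_dvd.2 (by simpa using mul_dvd_mul_left 2 h.d1)).symm
lemma Good.t2 {t : Dat} (h : Good t) : (⟨1, 0, 0, 1, 0, t.n⟩ : Aff) ∈ Gs t := by
  refine ⟨by simp [lin, D6], fun x y => D_congr t (by simp) ?_⟩
  simp only [one_mul, zero_mul, zero_add]
  exact (Int.modEq_iff_dvd.2 (by simpa using mul_dvd_mul_left 2 h.d2)).symm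

lemma Good.per {t : Dat} (h : Good t) : ∃ u v : E, LinearIndependent ℝ ![u, v] ∧
    (fun A : Set E => (fun x : E => x + u) '' A) '' TT t = TT t ∧
    (fun A : Set E => (fun x : E => x + v) '' A) '' TT t = TT t := by
  have hn : (t.n : ℝ) ≠ 0 := by have := h.1.2.2.1; positivity
  refine ⟨pt t.n 0, pt 0 t.n, ?_, ?_, ?_⟩
  · rw [LinearIndependent.pair_iff]
    intro a b e
    have e1 := congrArg U e
    have e2 := congrArg V e
    rw [U_lin] at e1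
    rw [V_lin] at e2
    have z1 : U 0 = 0 := by simp [U]
    have z2 : V 0 = 0 := by simp [V]
    simp only [U_pt, V_pt, z1, z2, mul_zero, add_zero, zero_add, mul_eq_zero, hn, or_false] at e1 e2
    exact ⟨e1, e2⟩
  · have : (fun x : E => x + pt t.n 0) = io ⟨1, 0, 0, 1, t.n, 0⟩ := by
      funext x
      rw [io_apply h.t1.1]
      exact ext_UV (by simp [F, U_add]) (by simp [F, V_add])
    rw [this]; exact io_mem_Sy h.t1
  · have : (fun x : E => x + pt 0 t.n) = io ⟨1, 0, 0, 1, 0, t.n⟩ := by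
      funext x
      rw [io_apply h.t2.1]
      exact ext_UV (by simp [F, U_add]) (by simp [F, V_add])
    rw [this]; exact io_mem_Sy h.t2

lemma Good.mono {t : Dat} (h : Good t) : ∀ A ∈ TT t, ∃ g : E ≃ᵢ E, A = (⇑g) '' loz 1 1 := by
  rintro _ ⟨x, y, hD, rfl⟩
  obtain ⟨g, -, e⟩ := loz_eq (h.valid hD)
  exact ⟨_, e⟩

lemma not_iso {t t' : Dat} (h : Good t) (h' : Good t') {i j : Fin 14} (hi : Ty (RR t) i)
    (hj : Ty (RR t') j) (e : Gs t ≃* Gs t') : i = j := by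
  have e1 : RR t = fun g => g ∈ Gs t := by funext g; exact propext (h.mem_iff g).symm
  have e2 : RR t' = fun g => g ∈ Gs t' := by funext g; exact propext (h'.mem_iff g).symm
  rw [e1, ← Ty_sub] at hi
  rw [e2, ← Ty_sub, Ty_iso e] at hj
  exact Ty_excl _ hi hj

end Pool.Agent.H.Rhomb
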