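import Pool.Agent.H.MP_fa5b42_co.B

set_option autoImplicit false

namespace Pool.Agent.H.Rhomb

/-- type p1 -/
def d0 : Dat := ⟨1, 7, 7,
  142641320,
  [((1, 0, 0, 1), 0, 0)]⟩
lemma g0 : Good d0 := by decide +kernel

/-- type pg -/
def d1 : Dat := ⟨1, 12, 12,
  152290986043560,
  [((1, 0, 0, 1), 0, 0), ((-1, -1, 0, 1), 0, 6)]⟩
lemma g1 : Good d1 := by decide +kernel

/-- type pm -/
def d2 : Dat := ⟨1, 6, 6,
  8921640,
  [((1, 0, 0, 1), 0, 0), ((1, 1, 0, -1), 0, 2)]⟩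
lemma g2 : Good d2 := by decide +kernel

/-- type cm -/
def d3 : Dat := ⟨4, 4, 4,
  11818097467604357640,
  [((1, 0, 0, 1), 0, 0), ((1, 1, 0, -1), 0, 0)]⟩
lemma g3 : Good d3 := by decide +kernel

/-- type p2 -/
def d4 : Dat := ⟨1, 3, 3,
  168,
  [((1, 0, 0, 1), 0, 0), ((-1, 0, 0, -1), 0, 1)]⟩
lemma g4 : Good d4 := by decide +kernel

/-- type pgg -/
def d5 : Dat := ⟨3, 6, 6,
  3103674349682294005800,
  [((1, 0, 0, 1), 0, 0), ((-1, -1, 0, 1), 2, 3), ((-1, 0, 0, -1), 0, 4), ((1, 1, 0, -1), 1, 1)]⟩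
lemma g5 : Good d5 := by decide +kernel

/-- type pmg -/
def d6 : Dat := ⟨1, 2, 2,
  40,
  [((1, 0, 0, 1), 0, 0), ((-1, -1, 0, 1), 0, 1), ((-1, 0, 0, -1), 0, 1), ((1, 1, 0, -1), 0, 0)]⟩
lemma g6 : Good d6 := by decide +kernel

/-- type pmm -/
def d7 : Dat := ⟨4, 8, 8,
  197577320809399369004972644455807066120,
  [((1, 0, 0, 1), 0, 0), ((-1, -1, 0, 1), 0, 0), ((-1, 0, 0, -1), 0, 0), ((1, 1, 0, -1), 0, 0)]⟩
lemma g7 : Good d7 := by decide +kernel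

/-- type cmm -/
def d8 : Dat := ⟨1, 1, 1,
  8,
  [((1, 0, 0, 1), 0, 0), ((0, 1, 1, 0), 0, 0), ((-1, 0, 0, -1), 0, 0), ((0, -1, -1, 0), 0, 0)]⟩
lemma g8 : Good d8 := by decide +kernel

/-- type p3 -/
def d9 : Dat := ⟨6, 6, 6,
  2904820784179352972812721817427961860628640,
  [((1, 0, 0, 1), 0, 0), ((-1, -1, 1, 0), 2, 2), ((0, 1, -1, -1), 4, 4)]⟩
lemma g9 : Good d9 := by decide +kernel

/-- type p3m1 -/
def d10 : Dat := ⟨12, 12, 12,
  143262031463726354254183721803354316371511339456447104925086391970333098970262362813388014715370479626257278065663903649196774452572207932244135418337609366734462226333205000,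
  [((1, 0, 0, 1), 0, 0), ((0, 1, 1, 0), 0, 0), ((-1, -1, 1, 0), 0, 0), ((-1, -1, 0, 1), 0, 0), ((0, 1, -1, -1), 0, 0), ((1, 0, -1, -1), 0, 0)]⟩
lemma g10 : Good d10 := by decide +kernel

/-- type p31m -/
def d11 : Dat := ⟨3, 3, 3,
  38692751496,
  [((1, 0, 0, 1), 0, 0), ((-1, 0, 1, 1), 2, 2), ((-1, -1, 1, 0), 1, 1), ((0, -1, -1, 0), 0, 0), ((0, 1, -1, -1), 2, 2), ((1, 1, 0, -1), 1, 1)]⟩
lemma g11 : Good d11 := by decide +kernel

/-- type p6 -/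
def d12 : Dat := ⟨6, 6, 6,
  12914442001452455136004249192343901263176200,
  [((1, 0, 0, 1), 0, 0), ((0, -1, 1, 1), 0, 0), ((-1, -1, 1, 0), 0, 0), ((-1, 0, 0, -1), 0, 0), ((0, 1, -1, -1), 0, 0), ((1, 1, -1, 0), 0, 0)]⟩
lemma g12 : Good d12 := by decide +kernel

/-- type p6m -/
def d13 : Dat := ⟨9, 9, 9,
  19779262086096488587567895133723292979452888576958348717844562609433286741370613709216725070283272,
  [((1, 0, 0, 1), 0, 0), ((0, 1, 1, 0), 0, 0), ((0, -1, 1, 1), 0, 0), ((-1, 0, 1, 1), 0, 0), ((-1, -1, 1, 0), 0, 0), ((-1, -1, 0, 1), 0, 0), ((-1, 0, 0, -1), 0, 0), ((0, -1, -1, 0), 0, 0), ((0, 1, -1, -1), 0, 0), ((1, 0, -1, -1), 0, 0), ((1, 1, -1, 0), 0, 0), ((1, 1, 0, -1), 0, 0)]⟩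
lemma g13 : Good d13 := by decide +kernel


end Pool.Agent.H.Rhomb
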