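import Pool.Agent.H.MP_fa5b42_co.C

set_option autoImplicit false

namespace Pool.Agent.H.Rhomb

instance : DecidableEq Aff := fun _ _ => decidable_of_iff _ Aff.ext_iff.symm
instance (t : Dat) (g : Aff) : Decidable (RR t g) := by unfold RR; infer_instance

lemma Good.d6 {t : Dat} (h : Good t) {g : Aff} (hg : RR t g) : lin g ∈ D6 :=
  ((h.mem_iff g).2 hg).1

lemma notO3 {t : Dat} (h : Good t)
    (hl : ∀ s ∈ t.sy, s.1 ≠ (-1, -1, 1, 0) ∧ s.1 ≠ (0, 1, -1, -1)) : ¬ O3 (RR t) := by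
  rintro ⟨⟨p, q, r, s, a, b⟩, hg, h1, h2⟩
  have h3 := hl _ hg
  have h4 := h.d6 hg
  clear hl hg h
  simp only [lin, D6, List.mem_cons, Prod.mk.injEq, List.not_mem_nil, or_false, ne_eq] at h3 h4
  rcases h4 with h | h | h | h | h | h | h | h | h | h | h | h <;>
    obtain ⟨rfl, rfl, rfl, rfl⟩ := h <;>
    simp only [mul_def, one_def, Aff.mk.injEq, ne_eq, true_and, and_true, not_true_eq_false,
      false_and, and_false] at * <;> omega

lemma yesO3 {t : Dat} (a b : ℤ) (hg : RR t ⟨-1, -1, 1, 0, a, b⟩) : O3 (RR t) := by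
  refine ⟨_, hg, ?_, ?_⟩ <;> simp only [mul_def, one_def, Aff.mk.injEq, ne_eq, true_and, and_true, not_true_eq_false] <;> omega

lemma notHT {t : Dat} (h : Good t) (hl : ∀ s ∈ t.sy, s.1 ≠ (-1, 0, 0, -1)) : ¬ HT (RR t) := by
  rintro ⟨⟨p, q, r, s, a, b⟩, hg, h1, h2⟩
  have h3 := hl _ hg
  have h4 := h.d6 hg
  have k0 := h2 _ ((h.mem_iff _).1 (Gs t).one_mem)
  have k1 := h2 _ ((h.mem_iff _).1 h.t1)
  have k2 := h2 _ ((h.mem_iff _).1 h.t2)
  have hn := h.1.2.2.1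
  clear hl hg h h2
  simp only [lin, D6, List.mem_cons, Prod.mk.injEq, List.not_mem_nil, or_false, ne_eq] at h3 h4
  rcases h4 with h | h | h | h | h | h | h | h | h | h | h | h <;>
    obtain ⟨rfl, rfl, rfl, rfl⟩ := h <;>
    simp only [mul_def, one_def, Aff.mk.injEq, ne_eq, true_and, and_true, not_true_eq_false] at * <;> omega

lemma yesHT {t : Dat} (h : Good t) (a b : ℤ) (hs : RR t ⟨-1, 0, 0, -1, a, b⟩) : HT (RR t) := by
  refine ⟨_, hs, by simp [one_def], ?_⟩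
  rintro ⟨p, q, r, s, a', b'⟩ hg
  have h4 := h.d6 hg
  clear hs hg h
  simp only [lin, D6, List.mem_cons, Prod.mk.injEq, List.not_mem_nil, or_false] at h4
  rcases h4 with h | h | h | h | h | h | h | h | h | h | h | h <;>
    obtain ⟨rfl, rfl, rfl, rfl⟩ := h <;>
    simp only [mul_def, one_def, Aff.mk.injEq, true_and, and_true] <;> omega

lemma notRF {t : Dat} (h : Good t)
    (hl : ∀ s, RR t s → s * s = 1 → s.p * s.s - s.q * s.r = 1) : ¬ RF (RR t) := by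
  rintro ⟨⟨p, q, r, s, a, b⟩, hs, ⟨p', q', r', s', a', b'⟩, hg, h1, h2, h3, h4⟩
  have h5 := hl _ hs h2
  have h6 := h.d6 hs
  have h7 := h.d6 hg
  clear hs hg h hl
  simp only [lin, D6, List.mem_cons, Prod.mk.injEq, List.not_mem_nil, or_false] at h6 h7
  have h8 : p = -1 ∧ q = 0 ∧ r = 0 ∧ s = -1 := by
    clear h3 h4 h7
    rcases h6 with h | h | h | h | h | h | h | h | h | h | h | h <;>
      obtain ⟨rfl, rfl, rfl, rfl⟩ := h <;>
      simp only [mul_def, one_def, Aff.mk.injEq, ne_eq, true_and, and_true, not_true_eq_false] at * <;> omega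
  clear h6
  obtain ⟨rfl, rfl, rfl, rfl⟩ := h8
  rcases h7 with h | h | h | h | h | h | h | h | h | h | h | h <;>
    obtain ⟨rfl, rfl, rfl, rfl⟩ := h <;>
    simp only [mul_def, one_def, Aff.mk.injEq, ne_eq, true_and, and_true, not_true_eq_false] at * <;> omega

lemma notRF' {t : Dat} (h : Good t)
    (hl : ∀ s ∈ t.sy, s.1.1 * s.1.2.2.2 - s.1.2.1 * s.1.2.2.1 = 1) : ¬ RF (RR t) :=
  notRF h fun _ hs _ => hl _ hs

lemma ty0 : Ty (RR d0) 0 := by
  refine ⟨notO3 g0 (by decide), notHT g0 (by decide), notRF' g0 (by decide), ?_⟩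
  rintro ⟨p, q, r, s, a, b⟩ hg ⟨p', q', r', s', a', b'⟩ hh
  simp only [RR, d0, lin, List.mem_cons, Prod.mk.injEq, List.not_mem_nil, or_false] at hg hh
  obtain ⟨⟨rfl, rfl, rfl, rfl⟩, a1, b1⟩ := hg
  obtain ⟨⟨rfl, rfl, rfl, rfl⟩, a2, b2⟩ := hh
  simp only [mul_def, one_def, Aff.mk.injEq, ne_eq, true_and, and_true, not_true_eq_false] at * <;> omega

lemma ty1 : Ty (RR d1) 1 := by
  refine ⟨notO3 g1 (by decide), notHT g1 (by decide), notRF g1 ?_, fun h => ?_⟩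
  · rintro ⟨p, q, r, s, a, b⟩ hg h
    simp only [RR, d1, lin, List.mem_cons, Prod.mk.injEq, List.not_mem_nil, or_false] at hg
    rcases hg with hg | hg <;> obtain ⟨⟨rfl, rfl, rfl, rfl⟩, a1, b1⟩ := hg <;>
    simp only [mul_def, one_def, Aff.mk.injEq, ne_eq, true_and, and_true, not_true_eq_false] at * <;> omega
  · exact absurd (h ⟨-1, -1, 0, 1, 0, 6⟩ (by decide) ⟨1, 0, 0, 1, 1, 0⟩ (by decide)) (by decide)

lemma ty2 : Ty (RR d2) 2 := by
  refine ⟨notO3 g2 (by decide), notHT g2 (by decide),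
    ⟨⟨1, 1, 0, -1, -1, 2⟩, by decide, ⟨1, 0, 0, 1, 1, 0⟩, by decide, by decide, by decide, by decide, by decide⟩, fun h => ?_⟩
  obtain ⟨⟨p, q, r, s, a, b⟩, hg, h⟩ := h ⟨1, 1, 0, -1, -1, 2⟩ (by decide) ⟨1, 1, 0, -1, -4, 8⟩ (by decide)
    (by decide) (by decide) (by decide) (by decide)
  simp only [RR, d2, lin, List.mem_cons, Prod.mk.injEq, List.not_mem_nil, or_false] at hg
  rcases hg with hg | hg <;> obtain ⟨⟨rfl, rfl, rfl, rfl⟩, a1, b1⟩ := hg <;>
  simp only [mul_def, one_def, Aff.mk.injEq, ne_eq, true_and, and_true, not_true_eq_false] at * <;> omega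

lemma ty3 : Ty (RR d3) 3 := by
  refine ⟨notO3 g3 (by decide), notHT g3 (by decide),
    ⟨⟨1, 1, 0, -1, 0, 0⟩, by decide, ⟨1, 0, 0, 1, 4, 0⟩, by decide, by decide, by decide, by decide, by decide⟩, ?_⟩
  rintro ⟨p, q, r, s, a, b⟩ hg ⟨p', q', r', s', a', b'⟩ hh h1 h2 h3 h4
  simp only [RR, d3, lin, List.mem_cons, Prod.mk.injEq, List.not_mem_nil, or_false] at hg hh
  rcases hg with hg | hg <;> obtain ⟨⟨rfl, rfl, rfl, rfl⟩, a1, b1⟩ := hg <;>
  rcases hh with hh | hh <;> obtain ⟨⟨rfl, rfl, rfl, rfl⟩, a2, b2⟩ := hh <;>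
  refine ⟨⟨1, 0, 0, 1, 0, a - a'⟩, (by simp only [RR, d3, lin, List.mem_cons, Prod.mk.injEq, List.not_mem_nil, or_false, true_and]; omega), ?_⟩ <;>
  simp only [mul_def, one_def, Aff.mk.injEq, ne_eq, true_and, and_true, not_true_eq_false] at * <;> omega

lemma ty4 : Ty (RR d4) 4 := by
  refine ⟨notO3 g4 (by decide), yesHT g4 0 1 (by decide), notRF' g4 (by decide), ?_⟩
  rintro ⟨p, q, r, s, a, b⟩ hg ⟨p', q', r', s', a', b'⟩ hh h1 h2
  simp only [RR, d4, lin, List.mem_cons, Prod.mk.injEq, List.not_mem_nil, or_false] at hg hh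
  rcases hg with hg | hg <;> obtain ⟨⟨rfl, rfl, rfl, rfl⟩, a1, b1⟩ := hg <;>
  rcases hh with hh | hh <;> obtain ⟨⟨rfl, rfl, rfl, rfl⟩, a2, b2⟩ := hh <;>
  simp only [mul_def, one_def, Aff.mk.injEq, ne_eq, true_and, and_true, not_true_eq_false] at * <;> omega

lemma ty5 : Ty (RR d5) 5 := by
  refine ⟨notO3 g5 (by decide), yesHT g5 0 4 (by decide), notRF g5 ?_, fun h => ?_⟩
  · rintro ⟨p, q, r, s, a, b⟩ hg h
    simp only [RR, d5, lin, List.mem_cons, Prod.mk.injEq, List.not_mem_nil, or_false] at hg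
    rcases hg with hg | hg | hg | hg <;> obtain ⟨⟨rfl, rfl, rfl, rfl⟩, a1, b1⟩ := hg <;>
    simp only [mul_def, one_def, Aff.mk.injEq, ne_eq, true_and, and_true, not_true_eq_false] at * <;> omega
  · exact absurd (h ⟨-1, -1, 0, 1, 2, 3⟩ (by decide) ⟨1, 0, 0, 1, 3, 0⟩ (by decide) (by decide)
      (by decide)) (by decide)

lemma ty6 : Ty (RR d6) 6 := by
  refine ⟨notO3 g6 (by decide), yesHT g6 0 1 (by decide),
    ⟨⟨1, 1, 0, -1, 0, 0⟩, by decide, ⟨1, 0, 0, 1, 1, 0⟩, by decide, by decide, by decide, by decide, by decide⟩, ?_⟩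
  rintro ⟨⟨p, q, r, s, a, b⟩, hg, ⟨p', q', r', s', a', b'⟩, hh, h1, h2, h3, h4, h5, h6⟩
  simp only [RR, d6, lin, List.mem_cons, Prod.mk.injEq, List.not_mem_nil, or_false] at hg hh
  rcases hg with hg | hg | hg | hg <;> obtain ⟨⟨rfl, rfl, rfl, rfl⟩, a1, b1⟩ := hg <;>
  rcases hh with hh | hh | hh | hh <;> obtain ⟨⟨rfl, rfl, rfl, rfl⟩, a2, b2⟩ := hh <;>
  simp only [mul_def, one_def, Aff.mk.injEq, ne_eq, true_and, and_true, not_true_eq_false] at * <;> omega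

lemma ty7 : Ty (RR d7) 7 := by
  refine ⟨notO3 g7 (by decide), yesHT g7 0 0 (by decide),
    ⟨⟨1, 1, 0, -1, 0, 0⟩, by decide, ⟨1, 0, 0, 1, 4, 0⟩, by decide, by decide, by decide, by decide, by decide⟩,
    ⟨⟨1, 1, 0, -1, 0, 0⟩, by decide, ⟨-1, -1, 0, 1, 0, 0⟩, by decide, by decide, by decide,
      by decide, by decide, by decide, by decide⟩, ?_⟩
  rintro ⟨p, q, r, s, a, b⟩ hg h1 h2
  simp only [RR, d7, lin, List.mem_cons, Prod.mk.injEq, List.not_mem_nil, or_false] at hg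
  rcases hg with hg | hg | hg | hg <;> obtain ⟨⟨rfl, rfl, rfl, rfl⟩, a1, b1⟩ := hg
  · exfalso; simp only [mul_def, one_def, Aff.mk.injEq, ne_eq, true_and, and_true, not_true_eq_false] at * <;> omega
  · refine ⟨⟨1, 1, 0, -1, 0, 0⟩, by decide, ?_⟩; simp only [mul_def, one_def, Aff.mk.injEq, ne_eq, true_and, and_true, not_true_eq_false] at * <;> omega
  · refine ⟨⟨1, 1, 0, -1, -b / 2, b⟩, (by simp only [RR, d7, lin, List.mem_cons, Prod.mk.injEq, List.not_mem_nil, or_false, true_and]; omega), ?_⟩; simp only [mul_def, one_def, Aff.mk.injEq, ne_eq, true_and, and_true, not_true_eq_false] at * <;> omega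
  · refine ⟨⟨-1, -1, 0, 1, 0, 0⟩, by decide, ?_⟩; simp only [mul_def, one_def, Aff.mk.injEq, ne_eq, true_and, and_true, not_true_eq_false] at * <;> omega

lemma ty8 : Ty (RR d8) 8 := by
  refine ⟨notO3 g8 (by decide), yesHT g8 0 0 (by decide),
    ⟨⟨0, 1, 1, 0, 0, 0⟩, by decide, ⟨1, 0, 0, 1, 1, 1⟩, by decide, by decide, by decide, by decide, by decide⟩,
    ⟨⟨0, 1, 1, 0, 0, 0⟩, by decide, ⟨0, -1, -1, 0, 0, 0⟩, by decide, by decide, by decide,
      by decide, by decide, by decide, by decide⟩, fun h => ?_⟩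
  obtain ⟨⟨p, q, r, s, a, b⟩, hg, h1, h2, h3, h4⟩ := h ⟨-1, 0, 0, -1, 1, 0⟩ (by decide) (by decide) (by decide)
  simp only [RR, d8, lin, List.mem_cons, Prod.mk.injEq, List.not_mem_nil, or_false] at hg
  rcases hg with hg | hg | hg | hg <;> obtain ⟨⟨rfl, rfl, rfl, rfl⟩, a1, b1⟩ := hg <;>
  simp only [mul_def, one_def, Aff.mk.injEq, ne_eq, true_and, and_true, not_true_eq_false] at * <;> omega

lemma ty9 : Ty (RR d9) 9 := ⟨yesO3 2 2 (by decide), notHT g9 (by decide), notRF' g9 (by decide)⟩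

lemma ty10 : Ty (RR d10) 10 := by
  refine ⟨yesO3 0 0 (by decide), notHT g10 (by decide),
    ⟨⟨0, 1, 1, 0, 0, 0⟩, by decide, ⟨1, 0, 0, 1, 12, 12⟩, by decide, by decide, by decide, by decide, by decide⟩, ?_⟩
  rintro ⟨p, q, r, s, a, b⟩ hg h1 h2
  simp only [RR, d10, lin, List.mem_cons, Prod.mk.injEq, List.not_mem_nil, or_false] at hg
  rcases hg with hg | hg | hg | hg | hg | hg <;> obtain ⟨⟨rfl, rfl, rfl, rfl⟩, a1, b1⟩ := hg
  · exfalso; simp only [mul_def, one_def, Aff.mk.injEq, ne_eq, true_and, and_true, not_true_eq_false] at * <;> omega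
  · exfalso; simp only [mul_def, one_def, Aff.mk.injEq, ne_eq, true_and, and_true, not_true_eq_false] at * <;> omega
  · refine ⟨⟨0, 1, 1, 0, -b, b⟩, (by simp only [RR, d10, lin, List.mem_cons, Prod.mk.injEq, List.not_mem_nil, or_false, true_and]; omega), ?_⟩; simp only [mul_def, one_def, Aff.mk.injEq, ne_eq, true_and, and_true, not_true_eq_false] at * <;> omega
  · exfalso; simp only [mul_def, one_def, Aff.mk.injEq, ne_eq, true_and, and_true, not_true_eq_false] at * <;> omega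
  · refine ⟨⟨0, 1, 1, 0, a, -a⟩, (by simp only [RR, d10, lin, List.mem_cons, Prod.mk.injEq, List.not_mem_nil, or_false, true_and]; omega), ?_⟩; simp only [mul_def, one_def, Aff.mk.injEq, ne_eq, true_and, and_true, not_true_eq_false] at * <;> omega
  · exfalso; simp only [mul_def, one_def, Aff.mk.injEq, ne_eq, true_and, and_true, not_true_eq_false] at * <;> omega

lemma ty11 : Ty (RR d11) 11 := by
  refine ⟨yesO3 1 1 (by decide), notHT g11 (by decide),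
    ⟨⟨0, -1, -1, 0, 0, 0⟩, by decide, ⟨1, 0, 0, 1, 3, -3⟩, by decide, by decide, by decide, by decide, by decide⟩, fun h => ?_⟩
  obtain ⟨⟨p, q, r, s, a, b⟩, hg, h1, h2⟩ := h ⟨-1, -1, 1, 0, 1, 1⟩ (by decide) (by decide) (by decide)
  simp only [RR, d11, lin, List.mem_cons, Prod.mk.injEq, List.not_mem_nil, or_false] at hg
  rcases hg with hg | hg | hg | hg | hg | hg <;> obtain ⟨⟨rfl, rfl, rfl, rfl⟩, a1, b1⟩ := hg <;>
  simp only [mul_def, one_def, Aff.mk.injEq, ne_eq, true_and, and_true, not_true_eq_false] at * <;> omega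

lemma ty12 : Ty (RR d12) 12 := ⟨yesO3 0 0 (by decide), yesHT g12 0 0 (by decide), notRF' g12 (by decide)⟩

lemma ty13 : Ty (RR d13) 13 := ⟨yesO3 0 0 (by decide), yesHT g13 0 0 (by decide),
  ⟨⟨0, 1, 1, 0, 0, 0⟩, by decide, ⟨1, 0, 0, 1, 9, 9⟩, by decide, by decide, by decide, by decide, by decide⟩⟩

def dd : Fin 14 → Dat := ![d0, d1, d2, d3, d4, d5, d6, d7, d8, d9, d10, d11, d12, d13]

lemma dd_good (i : Fin 14) : Good (dd i) ∧ Ty (RR (dd i)) i := by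
  fin_cases i
  exacts [⟨g0, ty0⟩, ⟨g1, ty1⟩, ⟨g2, ty2⟩, ⟨g3, ty3⟩, ⟨g4, ty4⟩, ⟨g5, ty5⟩, ⟨g6, ty6⟩, ⟨g7, ty7⟩,
    ⟨g8, ty8⟩, ⟨g9, ty9⟩, ⟨g10, ty10⟩, ⟨g11, ty11⟩, ⟨g12, ty12⟩, ⟨g13, ty13⟩]

end Pool.Agent.H.Rhomb
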